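import Pool.Agent.Helper27.GW.StS
import Pool.Agent.Helper23.GK.M_COR

/-!
# Project GW, module FINS: the final statement in short intervals
-/

set_option autoImplicit false

namespace Pool.Agent.Helper27.GW

open Finset
open Pool.Agent.Helper23.GK

theorem hFINS (h : StFn2S) (hs : StSsa) : StFinalS := by
  classical
  intro A K ε hε
  obtain ⟨X0, hX0⟩ := h A (max K 4) ε hε
  set X1 : ℕ := max X0 5 with hX1
  refine ⟨max 1 (Real.log X1 ^ A), fun X H hX hH1 hH2 => ?_⟩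
  have hXr : (2 : ℝ) ≤ X := by exact_mod_cast hX
  have hlX : 0 < Real.log X := Real.log_pos (by linarith)
  have hlA : 0 < Real.log X ^ A := by positivity
  have hH0 : (0 : ℝ) ≤ H := Nat.cast_nonneg H
  by_cases hbig : X1 ≤ X
  · have hX5 : 5 ≤ X := (le_max_right _ _).trans hbig
    have h0 := hX0 X ((le_max_left _ _).trans hbig) H hH1 hH2
    have h1 : (H : ℝ) / Real.log X ^ A ≤ max 1 (Real.log X1 ^ A) * H / Real.log X ^ A := by
      have h2 : (H : ℝ) ≤ max 1 (Real.log X1 ^ A) * H :=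
        le_mul_of_one_le_left hH0 (le_max_left _ _)
      gcongr
    refine le_trans (le_trans ?_ h0) h1
    rw [← Set.ncard_coe_finset]
    apply Nat.cast_le.mpr
    apply Set.ncard_le_ncard _ (Finset.finite_toSet _)
    rintro N ⟨h1, h2, h3, h4⟩
    rw [Finset.mem_coe]
    unfold Exc
    rw [Finset.mem_filter, Finset.mem_Ioc]
    refine ⟨⟨h1, h2⟩, h3, ?_⟩
    by_contra hx
    apply h4
    have hs0 : 0 ≤ √(N : ℝ) := Real.sqrt_nonneg _
    have hmul : ∀ a : ℕ, a ≤ max K 4 → ∀ y : ℝ, y ≤ a * √(N : ℝ) →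
        y ≤ ((max K 4 : ℕ) : ℝ) * √(N : ℝ) := by
      intro a ha y hy
      exact hy.trans (mul_le_mul_of_nonneg_right (by exact_mod_cast ha) hs0)
    refine ⟨cor_aux hs A N (by omega) ?_, ?_⟩
    · rintro ⟨y, hy0, hy1, hy2⟩
      exact hx ⟨y, hy0, hmul 4 (le_max_right _ _) y hy1, hy2⟩
    · intro y hy0 hy1
      by_contra hy2
      push Not at hy2
      exact hx ⟨y, hy0, hmul K (le_max_left _ _) y hy1, hy2⟩
  · push Not at hbig
    have h1 : ({N : ℕ | X < N ∧ N ≤ X + H ∧ Even N ∧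
        ¬ ((∃ p : ℕ, p.Prime ∧ √(N : ℝ) < p ∧ (p : ℝ) < 4 * √(N : ℝ) ∧ (N - p).Prime) ∧
          ∀ y : ℝ, 0 ≤ y → y ≤ K * √(N : ℝ) →
            |RN N y - SS N * y| ≤ √(N : ℝ) / Real.log N ^ A)}.ncard : ℝ) ≤ H := by
      have h2 : {N : ℕ | X < N ∧ N ≤ X + H ∧ Even N ∧
        ¬ ((∃ p : ℕ, p.Prime ∧ √(N : ℝ) < p ∧ (p : ℝ) < 4 * √(N : ℝ) ∧ (N - p).Prime) ∧
          ∀ y : ℝ, 0 ≤ y → y ≤ K * √(N : ℝ) →
            |RN N y - SS N * y| ≤ √(N : ℝ) / Real.log N ^ A)}.ncard ≤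
          ((Ioc X (X + H) : Finset ℕ) : Set ℕ).ncard := by
        apply Set.ncard_le_ncard _ (Finset.finite_toSet _)
        rintro N ⟨h1, h2, _, _⟩
        rw [Finset.mem_coe, Finset.mem_Ioc]
        exact ⟨h1, h2⟩
      rw [Set.ncard_coe_finset, Nat.card_Ioc, Nat.add_sub_cancel_left] at h2
      exact_mod_cast h2
    refine h1.trans ?_
    rw [le_div_iff₀ hlA]
    have h3 : Real.log X ^ A ≤ max 1 (Real.log X1 ^ A) := by
      refine le_trans ?_ (le_max_right _ _)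
      refine pow_le_pow_left₀ hlX.le ?_ A
      exact Real.log_le_log (by linarith) (by exact_mod_cast hbig.le)
    rw [mul_comm]
    exact mul_le_mul_of_nonneg_right h3 hH0

end Pool.Agent.Helper27.GW
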