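import Pool.Agent.Helper27.GW.StS

/-!
# Project GW, module FN1S: circle method assembly in short intervals, one value of `h`
(adaptation of `Helper57/GK/M_FN1.lean`).
-/

set_option autoImplicit false

namespace Pool.Agent.Helper27.GW

open Finset ArithmeticFunction
open Pool.Agent.Helper48.BK (ex th Sx Apx)
open Pool.Agent.Helper23.GK

private theorem fn1_pow (c L : ℝ) (a b : ℕ) (h1 : 1 ≤ L) (hc : c ≤ L) (hab : a + 1 ≤ b) :
    c * L ^ a ≤ L ^ b := by
  calc c * L ^ a ≤ L * L ^ a := by gcongr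
    _ = L ^ (a + 1) := by ring
    _ ≤ L ^ b := pow_le_pow_right₀ h1 hab

private theorem fn1_markov2 (s : Finset ℕ) (f : ℕ → ℝ) (T : ℝ) (hT : 0 < T) :
    ((s.filter (fun N => T < |f N|)).card : ℝ) * T ^ 2 ≤ ∑ N ∈ s, f N ^ 2 := by
  calc ((s.filter (fun N => T < |f N|)).card : ℝ) * T ^ 2
      = ∑ N ∈ s.filter (fun N => T < |f N|), T ^ 2 := by
        simp [Finset.sum_const, nsmul_eq_mul]
    _ ≤ ∑ N ∈ s.filter (fun N => T < |f N|), f N ^ 2 := by
        apply Finset.sum_le_sum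
        intro N hN
        have h := (Finset.mem_filter.mp hN).2
        rw [← sq_abs (f N)]
        gcongr
    _ ≤ ∑ N ∈ s, f N ^ 2 :=
        Finset.sum_le_sum_of_subset_of_nonneg (Finset.filter_subset _ _)
          (fun _ _ _ => sq_nonneg _)

private theorem fn1_markov1 (s : Finset ℕ) (f : ℕ → ℝ) (T : ℝ) :
    ((s.filter (fun N => T < |f N|)).card : ℝ) * T ≤ ∑ N ∈ s, |f N| := by
  calc ((s.filter (fun N => T < |f N|)).card : ℝ) * T
      = ∑ N ∈ s.filter (fun N => T < |f N|), T := by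
        simp [Finset.sum_const, nsmul_eq_mul]
    _ ≤ ∑ N ∈ s.filter (fun N => T < |f N|), |f N| := by
        apply Finset.sum_le_sum
        intro N hN
        exact (Finset.mem_filter.mp hN).2.le
    _ ≤ ∑ N ∈ s, |f N| :=
        Finset.sum_le_sum_of_subset_of_nonneg (Finset.filter_subset _ _)
          (fun _ _ _ => abs_nonneg _)

private theorem fn1_th_nonneg (n : ℕ) : 0 ≤ th n := by
  unfold th
  split_ifs with h
  · exact Real.log_nonneg (by exact_mod_cast h.one_lt.le)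
  · exact le_refl _

private theorem fn1_th_le (n Y : ℕ) (hn : n ≤ Y) (hY : 1 ≤ Y) : th n ≤ Real.log Y := by
  unfold th
  split_ifs with h
  · apply Real.log_le_log
    · exact_mod_cast h.pos
    · exact_mod_cast hn
  · exact Real.log_nonneg (by exact_mod_cast hY)

/-- part 1: the convolution bound, with `th` cut to `(X - h, X + H]` -/
private theorem fn1_p1 (hCnv : StCnv) (f : ℕ → ℝ) (X H h : ℕ) (D : ℝ)
    (hHX : H ≤ X) (hhX : h ≤ X) (hX : 1 ≤ X) (hf : ∀ α, ‖Sx f h α‖ ≤ D) :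
    ∑ N ∈ Ioc X (X + H), (∑ n ∈ Ioc 0 h, f n * th (N - n)) ^ 2 ≤
      D ^ 2 * ((H + h) * Real.log (2 * X) ^ 2) := by
  classical
  set g : ℕ → ℝ := fun n => if X - h < n then th n else 0 with hg
  have h1 := hCnv f g (X + H) h D hf
  have h2 : ∑ N ∈ Ioc X (X + H), (∑ n ∈ Ioc 0 h, f n * th (N - n)) ^ 2 ≤
      ∑ N ∈ Ioc 0 (X + H), (∑ n ∈ (Ioc 0 h).filter (fun n => n < N), f n * g (N - n)) ^ 2 := by
    calc ∑ N ∈ Ioc X (X + H), (∑ n ∈ Ioc 0 h, f n * th (N - n)) ^ 2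
        = ∑ N ∈ Ioc X (X + H), (∑ n ∈ (Ioc 0 h).filter (fun n => n < N), f n * g (N - n)) ^ 2 := by
          apply Finset.sum_congr rfl
          intro N hN
          have hN' := Finset.mem_Ioc.mp hN
          rw [Finset.filter_true_of_mem]
          · congr 1
            apply Finset.sum_congr rfl
            intro n hn
            have hn' := Finset.mem_Ioc.mp hn
            rw [hg]
            simp only
            rw [if_pos (by omega)]
          · intro n hn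
            have hn' := Finset.mem_Ioc.mp hn
            omega
      _ ≤ _ := by
          apply Finset.sum_le_sum_of_subset_of_nonneg
          · intro N hN
            have hN' := Finset.mem_Ioc.mp hN
            exact Finset.mem_Ioc.mpr ⟨by omega, hN'.2⟩
          · intro _ _ _
            exact sq_nonneg _
  refine h2.trans (h1.trans ?_)
  apply mul_le_mul_of_nonneg_left _ (sq_nonneg D)
  have h5 : ∑ n ∈ Ioc 0 (X + H), g n ^ 2 = ∑ n ∈ Ioc (X - h) (X + H), th n ^ 2 := by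
    have h6 : ∀ n ∈ Ioc 0 (X + H), g n ^ 2 = if X - h < n then th n ^ 2 else 0 := by
      intro n _
      rw [hg]
      simp only
      split_ifs
      · rfl
      · norm_num
    rw [Finset.sum_congr rfl h6, ← Finset.sum_filter]
    apply Finset.sum_congr _ (fun _ _ => rfl)
    ext n
    simp only [Finset.mem_filter, Finset.mem_Ioc]
    omega
  rw [h5]
  calc ∑ n ∈ Ioc (X - h) (X + H), th n ^ 2
      ≤ ∑ n ∈ Ioc (X - h) (X + H), Real.log (2 * X) ^ 2 := by
        apply Finset.sum_le_sum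
        intro n hn
        have hn' := Finset.mem_Ioc.mp hn
        have h3 := fn1_th_le n (2 * X) (by omega) (by omega)
        have h4 := fn1_th_nonneg n
        push_cast at h3
        gcongr
    _ = (H + h) * Real.log (2 * X) ^ 2 := by
        rw [Finset.sum_const, nsmul_eq_mul, Nat.card_Ioc]
        have h7 : X + H - (X - h) = H + h := by omega
        rw [h7]
        push_cast
        rfl

/-- discrepancy of `(M, M + h]` -/
private noncomputable def DD (h q u M : ℕ) : ℝ :=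
  ∑ m ∈ (Ioc M (M + h)).filter (fun m => m ≡ u [MOD q]), th m -
    (if Nat.Coprime u q then (h : ℝ) / Nat.totient q else 0)

private theorem fn1_EE (N h q u : ℕ) (hN : h < N) : EE N h q u = DD h q u (N - h - 1) := by
  unfold EE DD
  have h' : Ico (N - h) N = Ioc (N - h - 1) (N - h - 1 + h) := by
    ext m
    simp only [Finset.mem_Ico, Finset.mem_Ioc]
    omega
  rw [h']

private theorem fn1_p2 (X H h q u : ℕ) (hh : h + 1 ≤ X) :
    ∑ N ∈ Ioc X (X + H), EE N h q u ^ 2 =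
      ∑ M ∈ Ioc (X - h - 1) (X - h - 1 + H), DD h q u M ^ 2 := by
  have h1 : ∑ N ∈ Ioc X (X + H), EE N h q u ^ 2 =
      ∑ M ∈ (Ioc X (X + H)).image (fun N => N - h - 1), DD h q u M ^ 2 := by
    rw [Finset.sum_image]
    · apply Finset.sum_congr rfl
      intro N hN
      have hN' := Finset.mem_Ioc.mp hN
      rw [fn1_EE N h q u (by omega)]
    · intro a ha b hb hab
      have ha' := Finset.mem_Ioc.mp (Finset.mem_coe.mp ha)
      have hb' := Finset.mem_Ioc.mp (Finset.mem_coe.mp hb)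
      simp only at hab
      omega
  rw [h1]
  apply Finset.sum_congr _ (fun _ _ => rfl)
  ext M
  simp only [Finset.mem_image, Finset.mem_Ioc]
  constructor
  · rintro ⟨N, hN, rfl⟩
    omega
  · intro hM
    exact ⟨M + h + 1, by omega, by omega⟩

private theorem fn1_p2' (s : Finset ℕ) (h Q : ℕ) (E : ℝ)
    (hE : ∀ q u : ℕ, 1 ≤ q → q ≤ Q → ∑ N ∈ s, EE N h q u ^ 2 ≤ E) (hE0 : 0 ≤ E) :
    ∑ N ∈ s, (∑ q ∈ Icc 1 Q, ∑ u ∈ range q, |EE N h q u|) ^ 2 ≤
      (Q : ℝ) ^ 2 * ((Q : ℝ) ^ 2 * E) := by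
  have hcard : (((Icc 1 Q).sigma (fun q => range q)).card : ℝ) ≤ (Q : ℝ) ^ 2 := by
    rw [Finset.card_sigma]
    push_cast
    calc ∑ q ∈ Icc 1 Q, ((range q).card : ℝ) ≤ ∑ q ∈ Icc 1 Q, (Q : ℝ) := by
          apply Finset.sum_le_sum
          intro q hq
          have := (Finset.mem_Icc.mp hq).2
          rw [Finset.card_range]
          exact_mod_cast this
      _ = (Q : ℝ) ^ 2 := by
          simp [Finset.sum_const, nsmul_eq_mul]
          ring
  have h1 : ∀ N, (∑ q ∈ Icc 1 Q, ∑ u ∈ range q, |EE N h q u|) ^ 2 ≤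
      (Q : ℝ) ^ 2 * ∑ z ∈ (Icc 1 Q).sigma (fun q => range q), EE N h z.1 z.2 ^ 2 := by
    intro N
    have h2 : ∑ q ∈ Icc 1 Q, ∑ u ∈ range q, |EE N h q u| =
        ∑ z ∈ (Icc 1 Q).sigma (fun q => range q), |EE N h z.1 z.2| := by
      rw [Finset.sum_sigma]
    rw [h2]
    have h3 := sq_sum_le_card_mul_sum_sq (s := (Icc 1 Q).sigma (fun q => range q))
      (f := fun z => |EE N h z.1 z.2|)
    refine h3.trans ?_
    have h4 : ∑ z ∈ (Icc 1 Q).sigma (fun q => range q), |EE N h z.1 z.2| ^ 2 =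
        ∑ z ∈ (Icc 1 Q).sigma (fun q => range q), EE N h z.1 z.2 ^ 2 := by
      apply Finset.sum_congr rfl
      intro z _
      rw [sq_abs]
    rw [h4]
    apply mul_le_mul_of_nonneg_right hcard
    exact Finset.sum_nonneg (fun _ _ => sq_nonneg _)
  calc ∑ N ∈ s, (∑ q ∈ Icc 1 Q, ∑ u ∈ range q, |EE N h q u|) ^ 2
      ≤ ∑ N ∈ s,
        (Q : ℝ) ^ 2 * ∑ z ∈ (Icc 1 Q).sigma (fun q => range q), EE N h z.1 z.2 ^ 2 :=
        Finset.sum_le_sum (fun N _ => h1 N)
    _ = (Q : ℝ) ^ 2 * ∑ z ∈ (Icc 1 Q).sigma (fun q => range q),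
          ∑ N ∈ s, EE N h z.1 z.2 ^ 2 := by
        rw [← Finset.mul_sum, Finset.sum_comm]
    _ ≤ (Q : ℝ) ^ 2 * ∑ z ∈ (Icc 1 Q).sigma (fun q => range q), E := by
        gcongr with z hz
        have hz' := Finset.mem_sigma.mp hz
        have hq := Finset.mem_Icc.mp hz'.1
        exact hE z.1 z.2 hq.1 hq.2
    _ ≤ (Q : ℝ) ^ 2 * ((Q : ℝ) ^ 2 * E) := by
        rw [Finset.sum_const, nsmul_eq_mul]
        gcongr

private theorem fn1_log2 (X : ℕ) (s L : ℝ) (Y : ℝ) (hs : s = √(X : ℝ)) (hL : L = Real.log X)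
    (hs1 : 1 ≤ s) (hY : s ≤ Y) : L / 2 ≤ Real.log Y := by
  have hX : (0 : ℝ) ≤ X := Nat.cast_nonneg X
  have h1 : Real.log s = L / 2 := by
    rw [hs, hL, Real.log_sqrt hX]
  rw [← h1]
  exact Real.log_le_log (by linarith) hY

/-- Module FN1S. -/
theorem hFN1S (hWin : StWinW) (hDvq : StDvq) (hCnv : StCnv) (hMnq : StMnq) (hSscp : StSscp)
    (hTau : StTau) : StFn1S := by
  intro A K ε hε
  obtain ⟨B, x₀, hB, hD⟩ := hDvq (2 * A + 6) (4 * A + 20)
  obtain ⟨C, hC, hS⟩ := hSscp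
  obtain ⟨C', hC', hS'⟩ := hTau
  obtain ⟨Y0, hW⟩ := hWin (3 * A + 4 * B + 5) (B + 1) K ε hε
  obtain ⟨M, hM1, hM2, hM3, hM4⟩ : ∃ M : ℝ, 4 ≤ M ∧
      216 * ((K : ℝ) + 2) ^ 2 * 4 ^ (2 * A + 6) ≤ M ∧
      (27 : ℝ) ≤ M ∧
      9 * K * C * C' * 2 ^ (2 * A + 10) ≤ M := by
    refine ⟨27 + 216 * ((K : ℝ) + 2) ^ 2 * 4 ^ (2 * A + 6) +
      9 * K * C * C' * 2 ^ (2 * A + 10), ?_, ?_, ?_, ?_⟩ <;>
    · have h1 : 0 ≤ 216 * ((K : ℝ) + 2) ^ 2 * 4 ^ (2 * A + 6) := by positivity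
      have h3 : 0 ≤ 9 * K * C * C' * 2 ^ (2 * A + 10) := by positivity
      linarith
  have e1 : ∀ᶠ X : ℕ in Filter.atTop, M ≤ Real.log X :=
    (Real.tendsto_log_atTop.comp tendsto_natCast_atTop_atTop).eventually_ge_atTop M
  have e2 : ∀ᶠ X : ℕ in Filter.atTop, 4 * ((K : ℝ) + 1) + 4 + x₀ ≤ √(X : ℝ) :=
    (Real.tendsto_sqrt_atTop.comp tendsto_natCast_atTop_atTop).eventually_ge_atTop _
  have e3 : ∀ᶠ X : ℕ in Filter.atTop, Y0 + 16 ≤ X := Filter.eventually_ge_atTop _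
  have e4 : ∀ᶠ X : ℕ in Filter.atTop, (K + 1 : ℝ) * √(X : ℝ) ≤ (X : ℝ) ^ (4 / 5 : ℝ) := by
    have h1 : ∀ᶠ X : ℕ in Filter.atTop, ((K : ℝ) + 1) ≤ (X : ℝ) ^ (3 / 10 : ℝ) :=
      ((tendsto_rpow_atTop (by norm_num : (0 : ℝ) < 3 / 10)).comp
        tendsto_natCast_atTop_atTop).eventually_ge_atTop _
    filter_upwards [h1, Filter.eventually_ge_atTop 1] with X hX hX1
    have hX0 : (0 : ℝ) < X := by exact_mod_cast hX1
    have h2 : (X : ℝ) ^ (4 / 5 : ℝ) = (X : ℝ) ^ (3 / 10 : ℝ) * √(X : ℝ) := by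
      rw [Real.sqrt_eq_rpow, ← Real.rpow_add hX0]
      norm_num
    rw [h2]
    gcongr
  obtain ⟨X0, h⟩ := Filter.eventually_atTop.mp (e1.and (e2.and (e3.and e4)))
  refine ⟨X0, fun X hX H hH1 hH2 hv hhv => ?_⟩
  obtain ⟨hL, hs, hX1, hX4⟩ := h X hX
  obtain ⟨s, hsd⟩ : ∃ s : ℝ, s = √(X : ℝ) := ⟨_, rfl⟩
  obtain ⟨L, hLd⟩ : ∃ L : ℝ, L = Real.log X := ⟨_, rfl⟩
  have hXr1 : (1 : ℝ) ≤ X := by exact_mod_cast (by omega : 1 ≤ X)
  have hHs : ((K : ℝ) + 1) * √(X : ℝ) ≤ H := by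
    refine hX4.trans (le_trans ?_ hH1)
    exact Real.rpow_le_rpow_of_exponent_le hXr1 (by linarith)
  have hW' := hW X (by omega) H hH1 hH2
  have hTauX := hS' X H (by omega) (by
    have h1 : (0 : ℝ) ≤ K := Nat.cast_nonneg K
    have h2 : 0 ≤ √(X : ℝ) := Real.sqrt_nonneg _
    nlinarith) hH2
  rw [← hLd] at hW' hTauX
  rw [← hsd] at hs hHs hhv hW' ⊢
  rw [← hLd] at hL ⊢
  have hXX : s * s = X := by rw [hsd]; exact Real.mul_self_sqrt (Nat.cast_nonneg X)
  have hK0 : (0 : ℝ) ≤ K := Nat.cast_nonneg K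
  have hx00 : (0 : ℝ) ≤ x₀ := Nat.cast_nonneg x₀
  have hs8 : 8 ≤ s := by linarith
  have hs0 : 0 < s := by linarith
  have hL4 : 4 ≤ L := hM1.trans hL
  have hL0 : 0 < L := by linarith
  have hX0 : (0 : ℝ) < X := by rw [← hXX]; positivity
  have hH0 : (0 : ℝ) < H := by
    have : 0 < ((K : ℝ) + 1) * s := by positivity
    linarith
  have hvH : (hv : ℝ) ≤ H := by
    have : (K : ℝ) * s ≤ ((K : ℝ) + 1) * s := mul_le_mul_of_nonneg_right (by linarith) hs0.le
    linarith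
  -- `x`
  obtain ⟨x, hxd⟩ : ∃ x : ℕ, x = ⌈((K : ℝ) + 1) * s⌉₊ := ⟨_, rfl⟩
  have hx1 : ((K : ℝ) + 1) * s ≤ x := by rw [hxd]; exact Nat.le_ceil _
  have hx2 : (x : ℝ) ≤ ((K : ℝ) + 2) * s := by
    have : (x : ℝ) < ((K : ℝ) + 1) * s + 1 := by
      rw [hxd]; exact Nat.ceil_lt_add_one (by positivity)
    linarith only [this, hs8]
  have hsx : s ≤ x := by
    have : 0 ≤ (K : ℝ) * s := by positivity
    linarith only [this, hx1]
  have hxX : (x : ℝ) ≤ X := by
    rw [← hXX]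
    refine hx2.trans ?_
    have : (K : ℝ) + 2 ≤ s := by linarith
    gcongr
  have hx₀ : x₀ ≤ x := by
    have : (x₀ : ℝ) ≤ x := by linarith
    exact_mod_cast this
  have hHx : hv ≤ x := by
    have : (hv : ℝ) ≤ x := by linarith only [hx1, hhv, hs0]
    exact_mod_cast this
  have hH4 : 4 * hv ≤ X := by
    have : (4 : ℝ) * hv ≤ X := by
      rw [← hXX]
      have h1 : (4 * (K : ℝ)) * s ≤ s * s :=
        mul_le_mul_of_nonneg_right (by linarith only [hs, hx00]) hs0.le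
      linarith only [h1, hhv]
    exact_mod_cast this
  have hX16 : 16 ≤ X := by omega
  -- `ℓ = log x`
  obtain ⟨l, hld⟩ : ∃ l : ℝ, l = Real.log x := ⟨_, rfl⟩
  have hl1 : L / 2 ≤ l := by
    rw [hld]; exact fn1_log2 X s L x hsd hLd (by linarith) hsx
  have hl2 : l ≤ L := by
    rw [hld, hLd]; exact Real.log_le_log (by linarith) hxX
  have hl0 : 2 ≤ l := by linarith
  -- `Q`
  obtain ⟨Q, hQd⟩ : ∃ Q : ℕ, Q = ⌈l ^ B⌉₊ := ⟨_, rfl⟩
  have hQ1 : l ^ B ≤ Q := by rw [hQd]; exact Nat.le_ceil _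
  have hQ2 : (Q : ℝ) ≤ l ^ (B + 1) := by
    have h1 : (Q : ℝ) < l ^ B + 1 := by
      rw [hQd]; exact Nat.ceil_lt_add_one (by positivity)
    have h2 : (1 : ℝ) ≤ l ^ B := one_le_pow₀ (by linarith)
    rw [pow_succ]
    have h3 : l ^ B * 2 ≤ l ^ B * l := mul_le_mul_of_nonneg_left hl0 (by positivity)
    linarith only [h1, h2, h3]
  have hQL : (Q : ℝ) ≤ L ^ (B + 1) :=
    hQ2.trans (pow_le_pow_left₀ (by linarith) hl2 _)
  have hQ0 : 1 ≤ Q := by
    have h2 : (1 : ℝ) ≤ l ^ B := one_le_pow₀ (by linarith)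
    exact_mod_cast h2.trans hQ1
  -- the three parts
  obtain ⟨S1, hS1⟩ : ∃ S1 : ℕ → ℝ, S1 = fun N => ∑ n ∈ Ioc 0 hv, (th n - LQ Q n) * th (N - n) :=
    ⟨_, rfl⟩
  obtain ⟨S2, hS2⟩ : ∃ S2 : ℕ → ℝ, S2 = fun N =>
      ∑ n ∈ Ioc 0 hv, LQ Q n * th (N - n) - hv * SQ Q N := ⟨_, rfl⟩
  obtain ⟨S3, hS3⟩ : ∃ S3 : ℕ → ℝ, S3 = fun N => (hv : ℝ) * (SQ Q N - SS N) := ⟨_, rfl⟩
  obtain ⟨T, hT⟩ : ∃ T : ℝ, T = s / (3 * L ^ A) := ⟨_, rfl⟩
  have hT0 : 0 < T := by rw [hT]; positivity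
  have hT2 : T ^ 2 = X / (9 * (L ^ A) ^ 2) := by
    rw [hT, ← hXX]; field_simp; ring
  have h11 : (H : ℝ) / (3 * L ^ A) * (X / (9 * (L ^ A) ^ 2)) = H * X / (27 * L ^ (3 * A)) := by
    have : L ^ (3 * A) = (L ^ A) ^ 3 := by rw [← pow_mul]; congr 1; ring
    rw [this]
    field_simp
    ring
  -- part 1
  have c1 : (((Ioc X (X + H)).filter (fun N => T < |S1 N|)).card : ℝ) ≤ H / (3 * L ^ A) := by
    have h1 := fn1_markov2 (Ioc X (X + H)) S1 T hT0
    have h2 : ∑ N ∈ Ioc X (X + H), S1 N ^ 2 ≤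
        ((x : ℝ) / l ^ (2 * A + 6)) ^ 2 * ((H + hv) * Real.log (2 * X) ^ 2) := by
      rw [hS1]
      apply fn1_p1 hCnv (fun n => th n - LQ Q n) X H hv _ hH2 (by omega) (by omega)
      intro α
      have h3 := hD x Q hx₀ (by rw [← hld]; exact hQ1) (by rw [← hld]; exact hQ2) α hv hHx
      rw [← hld] at h3
      exact h3
    have h3 : (x : ℝ) / l ^ (2 * A + 6) ≤ ((K : ℝ) + 2) * s * 2 ^ (2 * A + 6) / L ^ (2 * A + 6) := by
      rw [div_le_div_iff₀ (by positivity) (by positivity)]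
      have h4 : L ^ (2 * A + 6) ≤ 2 ^ (2 * A + 6) * l ^ (2 * A + 6) := by
        rw [← mul_pow]
        exact pow_le_pow_left₀ hL0.le (by linarith) _
      calc (x : ℝ) * L ^ (2 * A + 6) ≤ (((K : ℝ) + 2) * s) * (2 ^ (2 * A + 6) * l ^ (2 * A + 6)) := by
            gcongr
        _ = ((K : ℝ) + 2) * s * 2 ^ (2 * A + 6) * l ^ (2 * A + 6) := by ring
    have h4 : Real.log (2 * X) ≤ 2 * L := by
      rw [Real.log_mul (by norm_num) (by positivity), ← hLd]
      have : Real.log 2 < 1 := by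
        have := Real.log_two_lt_d9
        linarith
      linarith
    have h4' : 0 ≤ Real.log (2 * X) := Real.log_nonneg (by linarith)
    have h5 : ∑ N ∈ Ioc X (X + H), S1 N ^ 2 ≤
        (((K : ℝ) + 2) * s * 2 ^ (2 * A + 6) / L ^ (2 * A + 6)) ^ 2 * ((H + H) * (2 * L) ^ 2) := by
      refine h2.trans ?_
      gcongr
    have h6 : (((K : ℝ) + 2) * s * 2 ^ (2 * A + 6) / L ^ (2 * A + 6)) ^ 2 * ((H + H) * (2 * L) ^ 2) ≤
        H / (3 * L ^ A) * T ^ 2 := by
      rw [hT2]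
      have h7 : 216 * ((K : ℝ) + 2) ^ 2 * 4 ^ (2 * A + 6) * L ^ (3 * A + 2) ≤ L ^ (4 * A + 12) :=
        fn1_pow _ L _ _ (by linarith) (hM2.trans hL) (by omega)
      have h8 : (((K : ℝ) + 2) * s * 2 ^ (2 * A + 6) / L ^ (2 * A + 6)) ^ 2 *
          ((H + H) * (2 * L) ^ 2) =
          (8 * ((K : ℝ) + 2) ^ 2 * 4 ^ (2 * A + 6) * L ^ 2 * (H * (X : ℝ))) / L ^ (4 * A + 12) := by
        have h9 : (4 : ℝ) ^ (2 * A + 6) = (2 ^ (2 * A + 6)) ^ 2 := by
          rw [← pow_mul, mul_comm (2 * A + 6) 2, pow_mul]; norm_num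
        have h10 : L ^ (4 * A + 12) = (L ^ (2 * A + 6)) ^ 2 := by
          rw [← pow_mul]; congr 1; ring
        rw [h9, h10, div_pow, ← hXX]
        field_simp
        ring
      rw [h8, h11, div_le_div_iff₀ (by positivity) (by positivity)]
      calc 8 * ((K : ℝ) + 2) ^ 2 * 4 ^ (2 * A + 6) * L ^ 2 * (H * (X : ℝ)) * (27 * L ^ (3 * A))
          = H * (X : ℝ) * (216 * ((K : ℝ) + 2) ^ 2 * 4 ^ (2 * A + 6) * L ^ (3 * A + 2)) := by ring
        _ ≤ H * (X : ℝ) * L ^ (4 * A + 12) := by gcongr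
    have h7 := h1.trans (h5.trans h6)
    exact le_of_mul_le_mul_right h7 (by positivity)
  -- part 2
  have c2 : (((Ioc X (X + H)).filter (fun N => T < |S2 N|)).card : ℝ) ≤ H / (3 * L ^ A) := by
    have h1 := fn1_markov2 (Ioc X (X + H)) S2 T hT0
    have hE : ∀ q u : ℕ, 1 ≤ q → q ≤ Q → ∑ N ∈ Ioc X (X + H), EE N hv q u ^ 2 ≤
        H * X / L ^ (3 * A + 4 * B + 5) := by
      intro q u hq hqQ
      rw [fn1_p2 X H hv q u (by omega)]
      have hqr : (q : ℝ) ≤ Q := by exact_mod_cast hqQ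
      exact hW' (X - hv - 1) (by omega) (by omega) q u hv hq (hqr.trans hQL) hhv
    have h2 := fn1_p2' (Ioc X (X + H)) hv Q _ hE (by positivity)
    have h3 : ∑ N ∈ Ioc X (X + H), S2 N ^ 2 ≤
        ∑ N ∈ Ioc X (X + H), (∑ q ∈ Icc 1 Q, ∑ u ∈ range q, |EE N hv q u|) ^ 2 := by
      apply Finset.sum_le_sum
      intro N hN
      have hN' := Finset.mem_Ioc.mp hN
      have h4 := hMnq Q N hv (by omega)
      rw [hS2, ← sq_abs]
      exact pow_le_pow_left₀ (abs_nonneg _) h4 2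
    have h4 : (Q : ℝ) ^ 2 * ((Q : ℝ) ^ 2 * (H * X / L ^ (3 * A + 4 * B + 5))) ≤
        H / (3 * L ^ A) * T ^ 2 := by
      rw [hT2]
      have h5 : 27 * L ^ (3 * A + 4 * B + 4) ≤ L ^ (3 * A + 4 * B + 5) :=
        fn1_pow _ L _ _ (by linarith) (hM3.trans hL) (by omega)
      have h6 : (Q : ℝ) ^ 4 ≤ L ^ (4 * B + 4) := by
        calc (Q : ℝ) ^ 4 ≤ (L ^ (B + 1)) ^ 4 := by gcongr
          _ = L ^ (4 * B + 4) := by rw [← pow_mul]; congr 1; ring
      have h12 : (Q : ℝ) ^ 2 * ((Q : ℝ) ^ 2 * (H * X / L ^ (3 * A + 4 * B + 5))) =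
          ((Q : ℝ) ^ 4 * (H * X)) / L ^ (3 * A + 4 * B + 5) := by
        ring
      rw [h11, h12, div_le_div_iff₀ (by positivity) (by positivity)]
      calc (Q : ℝ) ^ 4 * (H * X) * (27 * L ^ (3 * A))
          ≤ L ^ (4 * B + 4) * (H * X) * (27 * L ^ (3 * A)) := by
            gcongr
        _ = H * X * (27 * L ^ (3 * A + 4 * B + 4)) := by ring
        _ ≤ H * X * L ^ (3 * A + 4 * B + 5) := by gcongr
    have h7 := h1.trans (h3.trans (h2.trans h4))
    exact le_of_mul_le_mul_right h7 (by positivity)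
  -- part 3
  have c3 : ((((Ioc X (X + H)).filter (fun N => Even N)).filter (fun N => T < |S3 N|)).card : ℝ) ≤
      H / (3 * L ^ A) := by
    have h1 := fn1_markov1 ((Ioc X (X + H)).filter (fun N => Even N)) S3 T
    have h2 : ∑ N ∈ (Ioc X (X + H)).filter (fun N => Even N), |S3 N| ≤
        (K * s) * (C / √(Q : ℝ) * (C' * H * L)) := by
      calc ∑ N ∈ (Ioc X (X + H)).filter (fun N => Even N), |S3 N|
          ≤ ∑ N ∈ (Ioc X (X + H)).filter (fun N => Even N),
            (K * s) * (C / √(Q : ℝ) * (N.divisors.card : ℝ)) := by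
            apply Finset.sum_le_sum
            intro N hN
            obtain ⟨hN1, hN2⟩ := Finset.mem_filter.mp hN
            have hN' := Finset.mem_Ioc.mp hN1
            have h3 := hS Q N hQ0 (by omega) hN2
            rw [hS3]
            simp only
            rw [abs_mul, abs_sub_comm, abs_of_nonneg (Nat.cast_nonneg hv : (0 : ℝ) ≤ hv)]
            have h4 : C * (N.divisors.card : ℝ) / √(Q : ℝ) =
                C / √(Q : ℝ) * (N.divisors.card : ℝ) := by ring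
            rw [h4] at h3
            exact mul_le_mul hhv h3 (abs_nonneg _) (by positivity)
        _ ≤ ∑ N ∈ Ioc X (X + H), (K * s) * (C / √(Q : ℝ) * (N.divisors.card : ℝ)) := by
            apply Finset.sum_le_sum_of_subset_of_nonneg (Finset.filter_subset _ _)
            intro _ _ _
            positivity
        _ = (K * s) * (C / √(Q : ℝ) * ∑ N ∈ Ioc X (X + H), (N.divisors.card : ℝ)) := by
            rw [Finset.mul_sum, Finset.mul_sum]
        _ ≤ (K * s) * (C / √(Q : ℝ) * (C' * H * L)) := by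
            gcongr
    have h3 : (L / 2) ^ (2 * A + 10) ≤ √(Q : ℝ) := by
      apply Real.le_sqrt_of_sq_le
      calc ((L / 2) ^ (2 * A + 10)) ^ 2 = (L / 2) ^ (4 * A + 20) := by
            rw [← pow_mul]; congr 1; ring
        _ ≤ l ^ (4 * A + 20) := pow_le_pow_left₀ (by linarith) hl1 _
        _ ≤ l ^ B := pow_le_pow_right₀ (by linarith) hB
        _ ≤ Q := hQ1
    have h4 : (K * s) * (C / √(Q : ℝ) * (C' * H * L)) ≤ H / (3 * L ^ A) * T := by
      calc (K * s) * (C / √(Q : ℝ) * (C' * H * L))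
          ≤ (K * s) * (C / (L / 2) ^ (2 * A + 10) * (C' * H * L)) := by
            gcongr
        _ ≤ H / (3 * L ^ A) * T := by
            rw [hT]
            have h5 : 9 * K * C * C' * 2 ^ (2 * A + 10) * L ^ (2 * A + 1) ≤ L ^ (2 * A + 10) :=
              fn1_pow _ L _ _ (by linarith) (hM4.trans hL) (by omega)
            have h6 : (K * s) * (C / (L / 2) ^ (2 * A + 10) * (C' * H * L)) =
                (K * C * C' * 2 ^ (2 * A + 10) * L * (s * H)) / L ^ (2 * A + 10) := by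
              rw [div_pow]
              field_simp
            have h7 : (H : ℝ) / (3 * L ^ A) * (s / (3 * L ^ A)) = s * H / (9 * L ^ (2 * A)) := by
              have : L ^ (2 * A) = (L ^ A) ^ 2 := by rw [← pow_mul]; congr 1; ring
              rw [this]
              field_simp
              ring
            rw [h6, h7, div_le_div_iff₀ (by positivity) (by positivity)]
            calc K * C * C' * 2 ^ (2 * A + 10) * L * (s * H) * (9 * L ^ (2 * A))
                = s * H * (9 * K * C * C' * 2 ^ (2 * A + 10) * L ^ (2 * A + 1)) := by ring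
              _ ≤ s * H * L ^ (2 * A + 10) := by gcongr
    have h7 := h1.trans (h2.trans h4)
    exact le_of_mul_le_mul_right h7 hT0
  -- union
  have hsub : (Ioc X (X + H)).filter (fun N => Even N ∧ s / L ^ A <
      |∑ n ∈ (Ioc 0 hv).filter (fun n => n < N), th n * th (N - n) - SS N * hv|) ⊆
      ((Ioc X (X + H)).filter (fun N => T < |S1 N|) ∪
        (Ioc X (X + H)).filter (fun N => T < |S2 N|)) ∪
        ((Ioc X (X + H)).filter (fun N => Even N)).filter (fun N => T < |S3 N|) := by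
    intro N hN
    obtain ⟨hN1, hN2, hN3⟩ := Finset.mem_filter.mp hN
    have hN' := Finset.mem_Ioc.mp hN1
    have h1 : (Ioc 0 hv).filter (fun n => n < N) = Ioc 0 hv := by
      apply Finset.filter_true_of_mem
      intro n hn
      have hn' := Finset.mem_Ioc.mp hn
      omega
    have h2 : ∑ n ∈ (Ioc 0 hv).filter (fun n => n < N), th n * th (N - n) - SS N * hv =
        S1 N + S2 N + S3 N := by
      rw [h1, hS1, hS2, hS3]
      simp only [sub_mul, Finset.sum_sub_distrib]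
      ring
    rw [h2] at hN3
    have h3 : s / L ^ A = 3 * T := by
      rw [hT]
      field_simp
    rw [h3] at hN3
    simp only [Finset.mem_union, Finset.mem_filter]
    by_contra hcon
    push Not at hcon
    obtain ⟨⟨h5, h6⟩, h7⟩ := hcon
    have h5' := h5 hN1
    have h6' := h6 hN1
    have h7' := h7 ⟨hN1, hN2⟩
    have h8 : |S1 N + S2 N + S3 N| ≤ |S1 N| + |S2 N| + |S3 N| := abs_add_three _ _ _
    linarith
  have hcard := Finset.card_le_card hsub
  have hcard2 := hcard.trans (Finset.card_union_le _ _)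
  have hcard3 := Finset.card_union_le ((Ioc X (X + H)).filter (fun N => T < |S1 N|))
    ((Ioc X (X + H)).filter (fun N => T < |S2 N|))
  have hcard4 : (((Ioc X (X + H)).filter (fun N => Even N ∧ s / L ^ A <
      |∑ n ∈ (Ioc 0 hv).filter (fun n => n < N), th n * th (N - n) - SS N * hv|)).card : ℝ) ≤
      (((Ioc X (X + H)).filter (fun N => T < |S1 N|)).card : ℝ) +
      (((Ioc X (X + H)).filter (fun N => T < |S2 N|)).card : ℝ) +
      ((((Ioc X (X + H)).filter (fun N => Even N)).filter (fun N => T < |S3 N|)).card : ℝ) := by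
    exact_mod_cast hcard2.trans (Nat.add_le_add_right hcard3 _)
  refine hcard4.trans ?_
  have hfin : (H : ℝ) / (3 * L ^ A) + H / (3 * L ^ A) + H / (3 * L ^ A) = H / L ^ A := by
    field_simp
    ring
  linarith

end Pool.Agent.Helper27.GW
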