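import Pool.Agent.Helper27.GW.StS
import Pool.Agent.Helper15.AB.M_DB

/-!
# Project GW, module SSCP: tail of the singular series, pointwise
-/

set_option autoImplicit false

namespace Pool.Agent.Helper27.GW

open Finset ArithmeticFunction
open Pool.Agent.Helper23.GK

private theorem le_tot_mul (r : ℕ) : r ≤ Nat.totient r * r.divisors.card := by
  rcases Nat.eq_zero_or_pos r with h0 | h0
  · subst h0; simp
  · calc r = ∑ d ∈ r.divisors, Nat.totient d := (Nat.sum_totient r).symm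
      _ ≤ ∑ d ∈ r.divisors, Nat.totient r := by
          refine Finset.sum_le_sum fun d hd => ?_
          exact Nat.le_of_dvd (Nat.totient_pos.2 h0)
            (Nat.totient_dvd_of_dvd (Nat.dvd_of_mem_divisors hd))
      _ = _ := by rw [Finset.sum_const, smul_eq_mul, mul_comm]

/-- the term of the singular series -/
private noncomputable def ft (q N : ℕ) : ℝ :=
  (moebius q : ℝ) ^ 2 / (Nat.totient q : ℝ) ^ 2 * (cR q N : ℝ)

private theorem cR_le (q N : ℕ) (hq : 1 ≤ q) (hN : 1 ≤ N) :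
    |(cR q N : ℝ)| ≤ ∑ d ∈ N.divisors.filter (fun d => d ∣ q), (d : ℝ) := by
  have h1 : q.divisors.filter (fun d : ℕ => (d : ℤ) ∣ (N : ℤ)) =
      N.divisors.filter (fun d => d ∣ q) := by
    ext d
    simp only [mem_filter, Nat.mem_divisors, Int.natCast_dvd_natCast]
    constructor
    · rintro ⟨⟨h2, h3⟩, h4⟩
      exact ⟨⟨h4, by omega⟩, h2⟩
    · rintro ⟨⟨h2, h3⟩, h4⟩
      exact ⟨⟨h4, by omega⟩, h2⟩
  unfold cR
  rw [h1]
  push_cast
  refine (abs_sum_le_sum_abs _ _).trans (sum_le_sum fun d _ => ?_)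
  rw [abs_mul, abs_of_nonneg (Nat.cast_nonneg d : (0 : ℝ) ≤ d)]
  have h2 : |moebius (q / d)| ≤ 1 := abs_moebius_le_one
  have h3 : |((moebius (q / d) : ℤ) : ℝ)| ≤ 1 := by exact_mod_cast h2
  exact mul_le_of_le_one_right (Nat.cast_nonneg d) h3

private theorem ft_le {C0 : ℝ} (hC0 : 0 < C0)
    (hDB : ∀ n : ℕ, 1 ≤ n → (n.divisors.card : ℝ) ≤ C0 * (n : ℝ) ^ (1 / 8 : ℝ)) (q N : ℕ)
    (hq : 1 ≤ q) (hN : 1 ≤ N) :
    |ft q N| ≤ C0 ^ 2 * (q : ℝ) ^ (-(7 / 4) : ℝ) *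
      ∑ d ∈ N.divisors.filter (fun d => d ∣ q), (d : ℝ) := by
  have hq0 : (0 : ℝ) < q := by exact_mod_cast hq
  have hφ : (0 : ℝ) < Nat.totient q := by exact_mod_cast Nat.totient_pos.2 hq
  set τ : ℝ := (q.divisors.card : ℝ) with hτ
  have hτ0 : 0 ≤ τ := Nat.cast_nonneg _
  have hμ : (moebius q : ℝ) ^ 2 ≤ 1 := by
    have h1 : |moebius q| ≤ 1 := abs_moebius_le_one
    have h2 : |(moebius q : ℝ)| ≤ 1 := by exact_mod_cast h1
    rw [← sq_abs]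
    exact pow_le_one₀ (abs_nonneg _) h2
  have h4 : (q : ℝ) ≤ Nat.totient q * τ := by
    rw [hτ]; exact_mod_cast le_tot_mul q
  have h5 : (moebius q : ℝ) ^ 2 / (Nat.totient q : ℝ) ^ 2 ≤ τ ^ 2 / (q : ℝ) ^ 2 := by
    calc (moebius q : ℝ) ^ 2 / (Nat.totient q : ℝ) ^ 2 ≤ 1 / (Nat.totient q : ℝ) ^ 2 := by gcongr
      _ ≤ τ ^ 2 / (q : ℝ) ^ 2 := by
          rw [div_le_div_iff₀ (by positivity) (by positivity), one_mul, ← mul_pow, mul_comm τ]
          exact pow_le_pow_left₀ hq0.le h4 2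
  have h6 := hDB q hq
  have h7 : τ ^ 2 / (q : ℝ) ^ 2 ≤ C0 ^ 2 * (q : ℝ) ^ (-(7 / 4) : ℝ) := by
    calc τ ^ 2 / (q : ℝ) ^ 2 ≤ (C0 * (q : ℝ) ^ (1 / 8 : ℝ)) ^ 2 / (q : ℝ) ^ 2 := by gcongr
      _ = C0 ^ 2 * (q : ℝ) ^ (-(7 / 4) : ℝ) := by
          rw [mul_pow, ← Real.rpow_natCast ((q : ℝ) ^ (1 / 8 : ℝ)) 2, ← Real.rpow_mul hq0.le,
            ← Real.rpow_natCast (q : ℝ) 2, mul_div_assoc, ← Real.rpow_sub hq0]
          norm_num
  have h8 : 0 ≤ ∑ d ∈ N.divisors.filter (fun d => d ∣ q), (d : ℝ) :=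
    sum_nonneg fun d _ => Nat.cast_nonneg d
  unfold ft
  rw [abs_mul, abs_of_nonneg (by positivity)]
  exact mul_le_mul (h5.trans h7) (cR_le q N hq hN) (abs_nonneg _) (by positivity)

private theorem inner {Z : ℝ} (hsum : Summable (fun q : ℕ => (q : ℝ) ^ (-(5 / 4) : ℝ)))
    (hZ : Z = ∑' q : ℕ, (q : ℝ) ^ (-(5 / 4) : ℝ)) (Q R d : ℕ) (hd : 1 ≤ d) :
    (d : ℝ) * ∑ q ∈ (Ioc Q R).filter (fun q => d ∣ q), (q : ℝ) ^ (-(5 / 4) : ℝ) ≤ Z := by
  have hd0 : (0 : ℝ) < d := by exact_mod_cast hd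
  have hd1 : (1 : ℝ) ≤ d := by exact_mod_cast hd
  have hsub : (Ioc Q R).filter (fun q => d ∣ q) ⊆ (Icc 1 R).image (fun m => d * m) := by
    intro q hq
    rw [mem_filter, mem_Ioc] at hq
    obtain ⟨⟨h1, h2⟩, m, rfl⟩ := hq
    rw [mem_image]
    refine ⟨m, ?_, rfl⟩
    rw [mem_Icc]
    have h3 : 0 < d * m := by omega
    have h4 : 0 < m := Nat.pos_of_mul_pos_left h3
    refine ⟨h4, ?_⟩
    calc m ≤ d * m := Nat.le_mul_of_pos_left m hd
      _ ≤ R := h2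
  have h1 : ∑ q ∈ (Ioc Q R).filter (fun q => d ∣ q), (q : ℝ) ^ (-(5 / 4) : ℝ) ≤
      ∑ m ∈ Icc 1 R, ((d * m : ℕ) : ℝ) ^ (-(5 / 4) : ℝ) := by
    refine (sum_le_sum_of_subset_of_nonneg hsub (fun q _ _ => by positivity)).trans ?_
    rw [sum_image]
    intro a _ b _ hab
    exact Nat.eq_of_mul_eq_mul_left hd hab
  have h2 : ∑ m ∈ Icc 1 R, ((d * m : ℕ) : ℝ) ^ (-(5 / 4) : ℝ) =
      (d : ℝ) ^ (-(5 / 4) : ℝ) * ∑ m ∈ Icc 1 R, (m : ℝ) ^ (-(5 / 4) : ℝ) := by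
    rw [mul_sum]
    refine sum_congr rfl fun m _ => ?_
    push_cast
    rw [Real.mul_rpow hd0.le (Nat.cast_nonneg m)]
  have h3 : ∑ m ∈ Icc 1 R, (m : ℝ) ^ (-(5 / 4) : ℝ) ≤ Z := by
    rw [hZ]
    exact hsum.sum_le_tsum (Icc 1 R) (fun q _ => by positivity)
  have hZ0 : 0 ≤ Z := by
    rw [hZ]
    exact tsum_nonneg fun q => by positivity
  have h4 : (d : ℝ) * (d : ℝ) ^ (-(5 / 4) : ℝ) ≤ 1 := by
    have h5 : (d : ℝ) * (d : ℝ) ^ (-(5 / 4) : ℝ) = (d : ℝ) ^ (-(1 / 4) : ℝ) := by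
      nth_rewrite 1 [← Real.rpow_one (d : ℝ)]
      rw [← Real.rpow_add hd0]
      norm_num
    rw [h5]
    exact Real.rpow_le_one_of_one_le_of_nonpos hd1 (by norm_num)
  calc (d : ℝ) * ∑ q ∈ (Ioc Q R).filter (fun q => d ∣ q), (q : ℝ) ^ (-(5 / 4) : ℝ)
      ≤ (d : ℝ) * ((d : ℝ) ^ (-(5 / 4) : ℝ) * ∑ m ∈ Icc 1 R, (m : ℝ) ^ (-(5 / 4) : ℝ)) := by
        rw [← h2]
        gcongr
    _ = ((d : ℝ) * (d : ℝ) ^ (-(5 / 4) : ℝ)) * ∑ m ∈ Icc 1 R, (m : ℝ) ^ (-(5 / 4) : ℝ) := by ring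
    _ ≤ 1 * Z := by gcongr
    _ = Z := one_mul Z

/-- Module SSCP. -/
theorem hSSCP (hSsb : StSsb) : StSscp := by
  obtain ⟨C0, hC0, hDB⟩ := Pool.Agent.Helper15.AB.hDB (1 / 8) (by norm_num)
  have hsum : Summable (fun q : ℕ => (q : ℝ) ^ (-(5 / 4) : ℝ)) := by
    rw [Real.summable_nat_rpow]; norm_num
  obtain ⟨Z, hZ⟩ : ∃ Z : ℝ, Z = ∑' q : ℕ, (q : ℝ) ^ (-(5 / 4) : ℝ) := ⟨_, rfl⟩
  have hZ0 : 0 ≤ Z := by
    rw [hZ]
    exact tsum_nonneg fun q => by positivity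
  refine ⟨C0 ^ 2 * (Z + 1), by positivity, fun Q N hQ hN hE => ?_⟩
  have hQ0 : (0 : ℝ) < Q := by exact_mod_cast hQ
  -- finite version
  have hfin : ∀ R : ℕ, Q ≤ R →
      |∑ q ∈ Icc 1 R, ft q N - SQ Q N| ≤ C0 ^ 2 * (Z + 1) * (N.divisors.card : ℝ) / √Q := by
    intro R hR
    have h1 : ∑ q ∈ Icc 1 R, ft q N - SQ Q N = ∑ q ∈ Ioc Q R, ft q N := by
      have h2 : ∑ q ∈ Icc 1 R, ft q N = ∑ q ∈ Icc 1 Q, ft q N + ∑ q ∈ Ioc Q R, ft q N := by
        rw [← sum_union]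
        · congr 1
          ext a
          simp only [mem_Icc, mem_union, mem_Ioc]
          omega
        · rw [Finset.disjoint_left]
          intro a ha hb
          rw [mem_Icc] at ha
          rw [mem_Ioc] at hb
          omega
      rw [h2]
      unfold SQ ft
      ring
    rw [h1]
    calc |∑ q ∈ Ioc Q R, ft q N| ≤ ∑ q ∈ Ioc Q R, |ft q N| := abs_sum_le_sum_abs _ _
      _ ≤ ∑ q ∈ Ioc Q R, C0 ^ 2 * ((1 / √Q) * (q : ℝ) ^ (-(5 / 4) : ℝ)) *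
          ∑ d ∈ N.divisors.filter (fun d => d ∣ q), (d : ℝ) := by
          refine sum_le_sum fun q hq => ?_
          rw [mem_Ioc] at hq
          have hq0 : (0 : ℝ) < q := by exact_mod_cast (by omega : 0 < q)
          refine (ft_le (lt_of_lt_of_le one_pos hC0) hDB q N (by omega) hN).trans ?_
          have h3 : (q : ℝ) ^ (-(7 / 4) : ℝ) = (q : ℝ) ^ (-(1 / 2) : ℝ) * (q : ℝ) ^ (-(5 / 4) : ℝ) := by
            rw [← Real.rpow_add hq0]; norm_num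
          have h4 : (q : ℝ) ^ (-(1 / 2) : ℝ) ≤ 1 / √Q := by
            rw [Real.rpow_neg hq0.le, ← Real.sqrt_eq_rpow, ← one_div]
            refine one_div_le_one_div_of_le (Real.sqrt_pos.2 hQ0) (Real.sqrt_le_sqrt ?_)
            exact_mod_cast hq.1.le
          have h8 : 0 ≤ ∑ d ∈ N.divisors.filter (fun d => d ∣ q), (d : ℝ) :=
            sum_nonneg fun d _ => Nat.cast_nonneg d
          rw [h3]
          gcongr
      _ = C0 ^ 2 / √Q * ∑ q ∈ Ioc Q R, ∑ d ∈ N.divisors,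
          (if d ∣ q then (d : ℝ) * (q : ℝ) ^ (-(5 / 4) : ℝ) else 0) := by
          rw [mul_sum]
          refine sum_congr rfl fun q _ => ?_
          rw [← sum_filter, ← sum_mul]
          ring
      _ = C0 ^ 2 / √Q * ∑ d ∈ N.divisors,
          (d : ℝ) * ∑ q ∈ (Ioc Q R).filter (fun q => d ∣ q), (q : ℝ) ^ (-(5 / 4) : ℝ) := by
          rw [sum_comm]
          congr 1
          refine sum_congr rfl fun d _ => ?_
          rw [← sum_filter, mul_sum]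
      _ ≤ C0 ^ 2 / √Q * ∑ _d ∈ N.divisors, (Z + 1) := by
          gcongr with d hd
          have hd1 : 1 ≤ d := Nat.pos_of_mem_divisors hd
          have := inner hsum hZ Q R d hd1
          linarith
      _ = C0 ^ 2 * (Z + 1) * (N.divisors.card : ℝ) / √Q := by
          rw [sum_const, nsmul_eq_mul]
          ring
  -- limit
  have hlim : Filter.Tendsto (fun R : ℕ => |∑ q ∈ Icc 1 R, ft q N - SQ Q N|) Filter.atTop
      (nhds (|SS N - SQ Q N|)) := by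
    have h1 := (hSsb N hN hE).tendsto_sum_nat
    have h2 : Filter.Tendsto (fun R : ℕ => ∑ q ∈ Icc 1 R, ft q N) Filter.atTop (nhds (SS N)) := by
      have h3 := (Filter.tendsto_add_atTop_iff_nat 1).2 h1
      refine h3.congr fun R => ?_
      have h4 : (moebius 0 : ℝ) ^ 2 / (Nat.totient 0 : ℝ) ^ 2 * (cR 0 N : ℝ) = 0 := by simp
      rw [Finset.range_eq_Ico, Finset.sum_eq_sum_Ico_succ_bot (by omega), h4, zero_add]
      have h5 : Ico (0 + 1) (R + 1) = Icc 1 R := by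
        ext a
        simp only [mem_Ico, mem_Icc]
        omega
      rw [h5]
      rfl
    exact (h2.sub_const _).abs
  refine le_of_tendsto hlim ?_
  filter_upwards [Filter.eventually_ge_atTop Q] with R hR
  exact hfin R hR

end Pool.Agent.Helper27.GW
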