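import Pool.Agent.Helper27.GW.StS

/-!
# Project GW, module TAU
-/

set_option autoImplicit false

namespace Pool.Agent.Helper27.GW

open Finset ArithmeticFunction

/-- the divisors of `N` come in pairs -/
theorem tau_le (N Y : ℕ) (hN : N ≤ Y) :
    N.divisors.card ≤ 2 * ((Icc 1 (Nat.sqrt Y)).filter (fun d => d ∣ N)).card := by
  rcases Nat.eq_zero_or_pos N with h0 | h0
  · subst h0
    simp
  set S := (Icc 1 (Nat.sqrt Y)).filter (fun d => d ∣ N) with hS
  have hsub : N.divisors ⊆ S ∪ S.image (fun d => N / d) := by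
    intro d hd
    rw [Nat.mem_divisors] at hd
    obtain ⟨e, he⟩ := hd.1
    have hd0 : 0 < d := Nat.pos_of_dvd_of_pos hd.1 h0
    have he0 : 0 < e := by
      rcases Nat.eq_zero_or_pos e with h | h
      · subst h
        omega
      · exact h
    rw [mem_union, mem_image]
    rcases le_total d e with h | h
    · left
      rw [hS, mem_filter, mem_Icc]
      refine ⟨⟨hd0, ?_⟩, hd.1⟩
      rw [Nat.le_sqrt]
      calc d * d ≤ d * e := Nat.mul_le_mul_left d h
        _ = N := he.symm
        _ ≤ Y := hN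
    · right
      refine ⟨e, ?_, ?_⟩
      · rw [hS, mem_filter, mem_Icc]
        refine ⟨⟨he0, ?_⟩, ⟨d, by rw [he, mul_comm]⟩⟩
        rw [Nat.le_sqrt]
        calc e * e ≤ d * e := Nat.mul_le_mul_right e h
          _ = N := he.symm
          _ ≤ Y := hN
      · rw [he]
        exact Nat.mul_div_cancel d he0
  calc N.divisors.card ≤ (S ∪ S.image (fun d => N / d)).card := card_le_card hsub
    _ ≤ S.card + (S.image (fun d => N / d)).card := card_union_le _ _
    _ ≤ S.card + S.card := Nat.add_le_add_left card_image_le _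
    _ = 2 * S.card := by ring

/-- number of multiples of `d` in `(X, X + H]` -/
theorem mult_count (X H d : ℕ) (hd : 1 ≤ d) :
    (((Ioc X (X + H)).filter (fun N => d ∣ N)).card : ℝ) ≤ H / d + 1 := by
  have h1 : ((Ioc X (X + H)).filter (fun N => d ∣ N)).card = (X + H) / d - X / d := by
    have h2 := Nat.Ioc_filter_dvd_card_eq_div (X + H) d
    have h3 := Nat.Ioc_filter_dvd_card_eq_div X d
    have h4 : (Ioc 0 (X + H)).filter (fun N => d ∣ N) =
        (Ioc 0 X).filter (fun N => d ∣ N) ∪ (Ioc X (X + H)).filter (fun N => d ∣ N) := by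
      rw [← filter_union]
      congr 1
      ext n
      simp only [mem_union, mem_Ioc]
      omega
    have h5 : Disjoint ((Ioc 0 X).filter (fun N => d ∣ N))
        ((Ioc X (X + H)).filter (fun N => d ∣ N)) := by
      rw [Finset.disjoint_left]
      intro a ha hb
      rw [mem_filter, mem_Ioc] at ha hb
      omega
    rw [h4, card_union_of_disjoint h5, h3] at h2
    omega
  have hd0 : (0 : ℝ) < d := by exact_mod_cast hd
  rw [h1]
  have h6 : X / d ≤ (X + H) / d := Nat.div_le_div_right (by omega)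
  rw [Nat.cast_sub h6]
  have h7 : (((X + H) / d : ℕ) : ℝ) ≤ ((X + H : ℕ) : ℝ) / d := Nat.cast_div_le
  have h8 : (X : ℝ) / d < ((X / d : ℕ) : ℝ) + 1 := by
    rw [div_lt_iff₀ hd0]
    have h9 := Nat.lt_div_mul_add (a := X) (b := d) hd
    have h10 : (X : ℝ) < ((X / d * d + d : ℕ) : ℝ) := by exact_mod_cast h9
    push_cast at h10
    linarith
  push_cast at h7
  rw [add_div] at h7
  linarith

theorem harm_le (M : ℕ) : ∑ d ∈ Icc 1 M, (1 : ℝ) / d ≤ 1 + Real.log M := by
  have h := harmonic_le_one_add_log M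
  have h2 : ((harmonic M : ℚ) : ℝ) = ∑ d ∈ Icc 1 M, (1 : ℝ) / d := by
    rw [harmonic_eq_sum_Icc]
    push_cast
    refine sum_congr rfl fun d _ => ?_
    rw [one_div]
  rw [← h2]
  exact h

theorem hTAU : StTau := by
  refine ⟨16, by norm_num, ?_⟩
  intro X H hX hH1 hH2
  set M : ℕ := Nat.sqrt (X + H) with hM
  have hX0 : (2 : ℝ) ≤ X := by exact_mod_cast hX
  have hlog2 : Real.log 2 ≤ Real.log X := Real.log_le_log (by norm_num) hX0
  have hl2 : (1 : ℝ) / 2 ≤ Real.log 2 := by
    have := Real.log_two_gt_d9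
    linarith
  have hM1 : 1 ≤ M := by
    rw [hM, Nat.le_sqrt]
    omega
  have hMs : (M : ℝ) ≤ 2 * H := by
    have h1 : M * M ≤ X + H := Nat.sqrt_le (X + H)
    have h2 : (M : ℝ) * M ≤ 2 * X := by
      have : M * M ≤ 2 * X := by omega
      exact_mod_cast this
    have h3 : (M : ℝ) ≤ √(2 * X) := by
      apply Real.le_sqrt_of_sq_le
      rw [sq]
      exact h2
    have h4 : √(2 * (X : ℝ)) ≤ 2 * √(X : ℝ) := by
      rw [show (2 : ℝ) * √(X : ℝ) = √(2 ^ 2 * X) by
        rw [Real.sqrt_mul (by positivity), Real.sqrt_sq (by norm_num)]]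
      exact Real.sqrt_le_sqrt (by linarith)
    linarith
  have hMX : Real.log M ≤ 2 * Real.log X := by
    have h1 : (M : ℝ) ≤ (X : ℝ) ^ 2 := by
      have h2 : (M : ℝ) ≤ 2 * X := by
        have : (H : ℝ) ≤ X := by exact_mod_cast hH2
        have h3 : M * M ≤ X + H := Nat.sqrt_le (X + H)
        have h4 : M ≤ M * M := Nat.le_mul_of_pos_left M hM1
        have h5 : M ≤ 2 * X := by omega
        exact_mod_cast h5
      nlinarith
    have h2 := Real.log_le_log (by exact_mod_cast hM1 : (0 : ℝ) < M) h1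
    rw [Real.log_pow] at h2
    push_cast at h2
    exact h2
  have hH0 : (0 : ℝ) ≤ H := Nat.cast_nonneg H
  calc ∑ N ∈ Ioc X (X + H), (N.divisors.card : ℝ)
      ≤ ∑ N ∈ Ioc X (X + H), (2 * (((Icc 1 M).filter (fun d => d ∣ N)).card : ℝ)) := by
        refine sum_le_sum fun N hN => ?_
        rw [mem_Ioc] at hN
        exact_mod_cast tau_le N (X + H) hN.2
    _ = 2 * ∑ N ∈ Ioc X (X + H), ∑ d ∈ Icc 1 M, (if d ∣ N then (1 : ℝ) else 0) := by
        rw [← mul_sum]
        congr 1
        refine sum_congr rfl fun N _ => ?_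
        rw [card_filter]
        push_cast
        rfl
    _ = 2 * ∑ d ∈ Icc 1 M, (((Ioc X (X + H)).filter (fun N => d ∣ N)).card : ℝ) := by
        rw [sum_comm]
        congr 1
        refine sum_congr rfl fun d _ => ?_
        rw [card_filter]
        push_cast
        rfl
    _ ≤ 2 * ∑ d ∈ Icc 1 M, ((H : ℝ) / d + 1) := by
        gcongr with d hd
        rw [mem_Icc] at hd
        exact mult_count X H d hd.1
    _ = 2 * (H * ∑ d ∈ Icc 1 M, (1 : ℝ) / d + M) := by
        rw [sum_add_distrib, mul_sum]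
        simp [div_eq_mul_inv]
    _ ≤ 2 * (H * (1 + 2 * Real.log X) + 2 * H) := by
        have h1 := (harm_le M).trans (by linarith : 1 + Real.log (M : ℝ) ≤ 1 + 2 * Real.log X)
        gcongr
    _ ≤ 16 * H * Real.log X := by nlinarith

end Pool.Agent.Helper27.GW
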