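import Pool.Agent.Helper23.GK.StG

/-!
# Project GW (MP_b454d1): circle method in short intervals `(X, X + H]`, `X^{4/5+ε} ≤ H ≤ X`.

Statements. `L = log X`. The input from the window part is `StWinW`.
-/

set_option autoImplicit false

namespace Pool.Agent.Helper27.GW

open Finset ArithmeticFunction
open Pool.Agent.Helper48.BK (ex th Sx Apx)
open Pool.Agent.Helper23.GK

/-- WINW (input, project GW part B): primes in arithmetic progressions in almost all intervals of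
length `h ≤ K √X` with left end point in `(Z, Z + H]`. -/
def StWinW : Prop := ∀ (A B K : ℕ) (ε : ℝ), 0 < ε → ∃ X0 : ℕ, ∀ X : ℕ, X0 ≤ X → ∀ H : ℕ,
  (X : ℝ) ^ (4 / 5 + ε : ℝ) ≤ H → H ≤ X → ∀ Z : ℕ, X ≤ 2 * Z → Z ≤ 2 * X →
  ∀ q u h : ℕ, 1 ≤ q → (q : ℝ) ≤ Real.log X ^ B → (h : ℝ) ≤ K * √X →
  ∑ N ∈ Ioc Z (Z + H), (∑ m ∈ (Ioc N (N + h)).filter (fun m => m ≡ u [MOD q]), th m -
    (if Nat.Coprime u q then (h : ℝ) / Nat.totient q else 0)) ^ 2 ≤ H * X / Real.log X ^ A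

/-- SSCP (tail of the singular series, pointwise): `|SS N - SQ Q N| ≤ C τ(N) / √Q`.

Proof. `|SS N - SQ Q N| ≤ ∑_{q>Q} |c_q(N)|/φ(q)²` (SSB), `|c_q(N)| ≤ ∑_{d ∣ q, d ∣ N} d`, `1 ≤ √(q/Q)`, `φ(dm) ≥ φ(d)φ(m)`:
at most `Q^{-1/2} ∑_{d∣N} d^{3/2}/φ(d)² ∑_m m^{1/2}/φ(m)²` and `φ(m)² ≥ c m^{7/4}`. -/
def StSscp : Prop := ∃ C : ℝ, 0 < C ∧ ∀ Q N : ℕ, 1 ≤ Q → 1 ≤ N → Even N →
  |SS N - SQ Q N| ≤ C * (N.divisors.card : ℝ) / √Q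

/-- TAU (divisor function in short intervals), `1 ≤ X`, `√X ≤ H ≤ X`.

Proof. `τ(N) ≤ 2 #{d ∣ N : d² ≤ N}`, so the sum is at most `2 ∑_{d ≤ √(2X)} (H/d + 1)`. -/
def StTau : Prop := ∃ C : ℝ, 0 < C ∧ ∀ X H : ℕ, 2 ≤ X → √X ≤ H → H ≤ X →
  ∑ N ∈ Ioc X (X + H), (N.divisors.card : ℝ) ≤ C * H * Real.log X

/-- FN1S (one value of `h`). -/
def StFn1S : Prop := ∀ (A K : ℕ) (ε : ℝ), 0 < ε → ∃ X0 : ℕ, ∀ X : ℕ, X0 ≤ X → ∀ H : ℕ,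
  (X : ℝ) ^ (4 / 5 + ε : ℝ) ≤ H → H ≤ X → ∀ h : ℕ, (h : ℝ) ≤ K * √X →
  (((Ioc X (X + H)).filter (fun N => Even N ∧ √X / Real.log X ^ A <
    |∑ n ∈ (Ioc 0 h).filter (fun n => n < N), th n * th (N - n) - SS N * h|)).card : ℝ) ≤
    H / Real.log X ^ A

/-- FN2S (all `y` simultaneously). -/
def StFn2S : Prop := ∀ (A K : ℕ) (ε : ℝ), 0 < ε → ∃ X0 : ℕ, ∀ X : ℕ, X0 ≤ X → ∀ H : ℕ,
  (X : ℝ) ^ (4 / 5 + ε : ℝ) ≤ H → H ≤ X →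
  ((Exc A K (Ioc X (X + H))).card : ℝ) ≤ H / Real.log X ^ A

/-- The final statement of part S. -/
def StFinalS : Prop := ∀ (A K : ℕ) (ε : ℝ), 0 < ε → ∃ C : ℝ, ∀ X H : ℕ, 2 ≤ X →
  (X : ℝ) ^ (4 / 5 + ε : ℝ) ≤ H → H ≤ X →
    ({N : ℕ | X < N ∧ N ≤ X + H ∧ Even N ∧
      ¬ ((∃ p : ℕ, p.Prime ∧ √(N : ℝ) < p ∧ (p : ℝ) < 4 * √(N : ℝ) ∧ (N - p).Prime) ∧
        ∀ y : ℝ, 0 ≤ y → y ≤ K * √(N : ℝ) →
          |RN N y - SS N * y| ≤ √(N : ℝ) / Real.log N ^ A)}.ncard : ℝ) ≤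
      C * H / Real.log X ^ A

end Pool.Agent.Helper27.GW
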