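import Pool.Agent.Helper27.GW.M_SSCP
import Pool.Agent.Helper27.GW.M_TAU
import Pool.Agent.Helper27.GW.M_FN1S
import Pool.Agent.Helper27.GW.M_FN2S
import Pool.Agent.Helper27.GW.M_FINS
import Pool.Agent.Helper23.GK.All

/-!
# Project GW: circle method in short intervals, assembly from the window input `StWinW`
-/

set_option autoImplicit false

namespace Pool.Agent.Helper27.GW

open Pool.Agent.Helper23.GK

/-- part S of project GW from its window input -/
theorem finalS (hW : StWinW) : StFinalS :=
  hFINS (hFN2S (hFN1S hW AllGK.dvq AllGK.cnv AllGK.mnq (hSSCP AllGK.ssb) hTAU) AllGK.ssa) AllGK.ssa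

end Pool.Agent.Helper27.GW
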